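import Pool.Agent.D0H36.LC.Laws
import Pool.Agent.D0H81.LW.Rc

/-!
# Consequences inside a subclass
-/

set_option autoImplicit false

namespace Pool.Agent.D0H36.LC

open Finset Polynomial Pool.Agent.H207R2.BL Pool.Agent.D0H36.BL
open Pool.Agent.R814.BL (Cl)
open Pool.Agent.D0H36.LW

theorem hCB : S_CBIN := Pool.Agent.D0H28.LW.t_CBIN

/-- the number of the roots is divisible by `d` for all planar graphs, and otherwise equidistributed -/
theorem mod_law' {𝒟 : ∀ V : Type, SimpleGraph V → Prop} (hFG : S_FG' 𝒟) {f : ℝ[X] → ℕ} (hf : AddFun f) {m : ℕ} (hm : 1 ≤ m) :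
    ∃ d : ℕ, d ∣ m ∧ (∀ (V : Type) [Finite V] (G : SimpleGraph V), Cl V G → d ∣ f (chr G)) ∧
      ∀ r : ℕ, d ∣ r → ∃ c : ℝ, 0 < c ∧ ∃ n₀ : ℕ, ∀ n : ℕ, n₀ ≤ n →
        |share 𝒟 n (fun G => f (chr G) ≡ r [MOD m]) - (d : ℝ) / m| ≤ Real.exp (-(c * n)) := by
  classical
  have : NeZero m := ⟨by omega⟩
  set φ : ℝ[X] → Multiplicative (ZMod m) := fun p => Multiplicative.ofAdd ((f p : ℕ) : ZMod m) with hφ
  have hφm : IsMul φ := hf.mod m
  have hFG' := hFG (Multiplicative (ZMod m)) φ hφm (by simp [hφ, hf.x]) (by simp [hφ, hf.x1])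
  -- the subgroup
  have h0 : (0 : ZMod m) ∈ {a : ZMod m | Multiplicative.ofAdd a ∈ vals φ} := by
    refine ⟨Empty, inferInstance, ⊥, ?_, ?_⟩
    · exact cl_small (by simp) _
    · rw [chr_empty inferInstance]
      have h1 := hf.mul X 1 X_ne_zero one_ne_zero
      rw [mul_one] at h1
      have h2 : f 1 = 0 := by omega
      show Multiplicative.ofAdd ((f 1 : ℕ) : ZMod m) = _
      rw [h2, Nat.cast_zero]
  have hadd : ∀ a b : ZMod m, Multiplicative.ofAdd a ∈ vals φ → Multiplicative.ofAdd b ∈ vals φ →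
      Multiplicative.ofAdd (a + b) ∈ vals φ := by
    rintro a b ⟨V, hV, G, hG, e1⟩ ⟨W, hW, H, hH, e2⟩
    obtain ⟨U, hU, K, hK, e3⟩ := disjoint_union G H hG hH
    refine ⟨U, hU, K, hK, ?_⟩
    have e4 : φ (chr K) = φ (chr G) * φ (chr H) := by
      rw [e3]
      show Multiplicative.ofAdd ((f _ : ℕ) : ZMod m) = _
      rw [hf.mul _ _ (chr_ne_zero G) (chr_ne_zero H), Nat.cast_add, ofAdd_add]
    rw [e4, e1, e2, ofAdd_add]
  have hnsmul : ∀ (k : ℕ) (a : ZMod m), Multiplicative.ofAdd a ∈ vals φ →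
      Multiplicative.ofAdd (k • a) ∈ vals φ := by
    intro k a ha
    induction k with
    | zero =>
      rw [zero_smul]
      exact h0
    | succ k ih =>
      rw [succ_nsmul]
      exact hadd _ _ ih ha
  let H : AddSubgroup (ZMod m) :=
    { carrier := {a | Multiplicative.ofAdd a ∈ vals φ}
      zero_mem' := h0
      add_mem' := fun {a b} ha hb => hadd a b ha hb
      neg_mem' := by
        intro a ha
        have h1 : -a = (m - 1) • a := by
          have h2 : (m - 1) • a + a = 0 := by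
            rw [← succ_nsmul, Nat.sub_add_cancel hm]
            simp
          exact (eq_neg_of_add_eq_zero_left h2).symm
        rw [h1]
        exact hnsmul _ _ ha }
  have hH : ∀ a : ZMod m, a ∈ H ↔ Multiplicative.ofAdd a ∈ vals φ := fun a => Iff.rfl
  obtain ⟨d0, hd0⟩ := Int.subgroup_cyclic (H.comap (Int.castAddHom (ZMod m)))
  have hmem : ∀ a : ℤ, (a : ZMod m) ∈ H ↔ (d0 : ℤ) ∣ a := by
    intro a
    have h1 : a ∈ H.comap (Int.castAddHom (ZMod m)) ↔ (a : ZMod m) ∈ H := Iff.rfl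
    rw [← h1, hd0, AddSubgroup.mem_closure_singleton]
    constructor
    · rintro ⟨k, rfl⟩
      exact ⟨k, by simp [mul_comm]⟩
    · rintro ⟨k, rfl⟩
      exact ⟨k, by simp [mul_comm]⟩
  set d := d0.natAbs with hd
  have hmem' : ∀ a : ℕ, ((a : ℕ) : ZMod m) ∈ H ↔ d ∣ a := by
    intro a
    have h1 := hmem (a : ℤ)
    rw [Int.cast_natCast] at h1
    rw [h1, hd, Int.natAbs_dvd_natAbs.symm.trans (by rw [Int.natAbs_natCast])]
  have hdm : d ∣ m := by
    rw [← hmem' m, ZMod.natCast_self]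
    exact H.zero_mem
  refine ⟨d, hdm, ?_, ?_⟩
  · intro V _ G hG
    rw [← hmem', hH]
    exact ⟨V, inferInstance, G, hG, rfl⟩
  · -- the number of the values
    have hd0 : 0 < d := Nat.pos_of_dvd_of_pos hdm hm
    have hcard : (vals φ).ncard = m / d := by
      have h1 : vals φ = (fun j : ℕ => Multiplicative.ofAdd ((d * j : ℕ) : ZMod m)) ''
          (↑(range (m / d)) : Set ℕ) := by
        ext a
        constructor
        · intro ha
          have h2 : (Multiplicative.toAdd a) ∈ H := by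
            rw [hH]
            exact ha
          have h3 : (((Multiplicative.toAdd a).val : ℕ) : ZMod m) = Multiplicative.toAdd a :=
            ZMod.natCast_zmod_val _
          rw [← h3, hmem'] at h2
          obtain ⟨j, hj⟩ := h2
          refine ⟨j, ?_, ?_⟩
          · rw [Finset.coe_range, Set.mem_Iio]
            have h4 : (Multiplicative.toAdd a).val < m := ZMod.val_lt _
            rw [hj] at h4
            apply Nat.lt_of_mul_lt_mul_left (a := d)
            rw [Nat.mul_div_cancel' hdm]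
            exact h4
          · show Multiplicative.ofAdd ((d * j : ℕ) : ZMod m) = a
            rw [← hj, h3]
            rfl
        · rintro ⟨j, _, rfl⟩
          rw [← hH, hmem']
          exact Dvd.intro _ rfl
      have hinj : Set.InjOn (fun j : ℕ => Multiplicative.ofAdd ((d * j : ℕ) : ZMod m))
          (↑(range (m / d)) : Set ℕ) := by
        intro i hi j hj hij
        rw [Finset.coe_range, Set.mem_Iio] at hi hj
        have h2 : ((d * i : ℕ) : ZMod m) = ((d * j : ℕ) : ZMod m) := hij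
        rw [ZMod.natCast_eq_natCast_iff'] at h2
        have hlt : ∀ k, k < m / d → d * k < m := by
          intro k hk
          calc d * k < d * (m / d) := Nat.mul_lt_mul_of_pos_left hk hd0
            _ = m := Nat.mul_div_cancel' hdm
        rw [Nat.mod_eq_of_lt (hlt i hi), Nat.mod_eq_of_lt (hlt j hj)] at h2
        exact Nat.eq_of_mul_eq_mul_left hd0 h2
      rw [h1, hinj.ncard_image, Set.ncard_coe_finset, Finset.card_range]
    intro r hr
    have hrv : Multiplicative.ofAdd ((r : ℕ) : ZMod m) ∈ vals φ := by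
      rw [← hH, hmem']
      exact hr
    obtain ⟨c, hc, n₀, H1⟩ := hFG' _ hrv
    refine ⟨c, hc, n₀, fun n hn => ?_⟩
    have h2 := H1 n hn
    have h3 : (1 : ℝ) / ((vals φ).ncard : ℝ) = (d : ℝ) / m := by
      rw [hcard, Nat.cast_div hdm (by exact_mod_cast hd0.ne')]
      rw [one_div_div]
    rw [h3] at h2
    have h4 : (fun G : SimpleGraph (Fin n) => φ (chr G) = Multiplicative.ofAdd ((r : ℕ) : ZMod m)) =
        (fun G : SimpleGraph (Fin n) => f (chr G) ≡ r [MOD m]) := by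
      funext G
      apply propext
      rw [← ZMod.natCast_eq_natCast_iff]
      exact Multiplicative.ofAdd.injective.eq_iff
    rw [h4] at h2
    exact h2

/-- the law of the signs -/
theorem sign_law' {𝒟 : ∀ V : Type, SimpleGraph V → Prop} (hFG : S_FG' 𝒟) (Q : Finset ℝ)
    (hQ : ∀ q ∈ Q, 1 < q ∧ ∀ (V : Type) [Finite V] (G : SimpleGraph V), Cl V G → (chr G).eval q ≠ 0)
    (T : Finset ℝ) (hT : T ∈ Pat Q) :
    ∃ c : ℝ, 0 < c ∧ ∃ n₀ : ℕ, ∀ n : ℕ, n₀ ≤ n →
      |share 𝒟 n (fun G => neg Q (chr G) = T) - 1 / ((Pat Q).ncard : ℝ)| ≤ Real.exp (-(c * n)) := by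
  classical
  let φ : ℝ[X] → ({x // x ∈ Q} → ℤˣ) := fun p q => if p.eval q.1 < 0 then -1 else 1
  let ψ : Finset ℝ → ({x // x ∈ Q} → ℤˣ) := fun T q => if q.1 ∈ T then -1 else 1
  have hψ : ∀ p, ψ (neg Q p) = φ p := by
    intro p
    funext q
    show (if q.1 ∈ neg Q p then (-1 : ℤˣ) else 1) = if p.eval q.1 < 0 then -1 else 1
    have : q.1 ∈ neg Q p ↔ p.eval q.1 < 0 := by
      unfold neg
      rw [Finset.mem_filter]
      exact ⟨fun h => h.2, fun h => ⟨q.2, h⟩⟩
    simp only [this]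
  have hinj : ∀ T T' : Finset ℝ, T ⊆ Q → T' ⊆ Q → ψ T = ψ T' → T = T' := by
    intro T T' hT hT' h
    have h1 : ∀ q (hq : q ∈ Q), q ∈ T ↔ q ∈ T' := by
      intro q hq
      have h2 : (if q ∈ T then (-1 : ℤˣ) else 1) = if q ∈ T' then (-1 : ℤˣ) else 1 :=
        congrFun h ⟨q, hq⟩
      by_cases h3 : q ∈ T <;> by_cases h4 : q ∈ T'
      · exact ⟨fun _ => h4, fun _ => h3⟩
      · rw [if_pos h3, if_neg h4] at h2
        exact absurd h2 (by decide)
      · rw [if_neg h3, if_pos h4] at h2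
        exact absurd h2 (by decide)
      · exact ⟨fun h => absurd h h3, fun h => absurd h h4⟩
    ext q
    exact ⟨fun h5 => (h1 q (hT h5)).1 h5, fun h5 => (h1 q (hT' h5)).2 h5⟩
  have hsub : ∀ p, neg Q p ⊆ Q := fun p => Finset.filter_subset _ _
  have hφ : IsMul φ := by
    refine ⟨{ carrier := {p | ∀ q ∈ Q, p.eval q ≠ 0}
              one_mem' := fun q _ => by simp
              mul_mem' := fun {a b} ha hb q hq => by
                rw [eval_mul]
                exact mul_ne_zero (ha q hq) (hb q hq) }, ?_, ?_, ?_, ?_, ?_⟩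
    · intro q hq
      rw [eval_X]
      have := (hQ q hq).1
      linarith
    · intro q hq
      rw [eval_sub, eval_X, eval_one]
      have := (hQ q hq).1
      intro h
      linarith
    · intro q hq
      rw [eval_sub, eval_X, eval_ofNat]
      intro h
      have h1 := (hQ q hq).2 (Fin 3) (book 3) (hBK 3 le_rfl).1
      rw [hBW.2 3 (by norm_num)] at h1
      apply h1
      simp only [eval_mul, eval_pow, eval_sub, eval_X, eval_ofNat, h]
      norm_num
    · intro V _ G hG q hq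
      exact (hQ q hq).2 V G hG
    · intro p hp r hr
      funext q
      have h1 : p.eval q.1 ≠ 0 := hp q.1 q.2
      have h2 : r.eval q.1 ≠ 0 := hr q.1 q.2
      show (if (p * r).eval q.1 < 0 then (-1 : ℤˣ) else 1) =
        (if p.eval q.1 < 0 then -1 else 1) * (if r.eval q.1 < 0 then -1 else 1)
      rw [eval_mul]
      rcases lt_or_gt_of_ne h1 with h3 | h3 <;> rcases lt_or_gt_of_ne h2 with h4 | h4
      · rw [if_neg (not_lt.2 (mul_pos_of_neg_of_neg h3 h4).le), if_pos h3, if_pos h4]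
        decide
      · rw [if_pos (mul_neg_of_neg_of_pos h3 h4), if_pos h3, if_neg (not_lt.2 h4.le)]
        decide
      · rw [if_pos (mul_neg_of_pos_of_neg h3 h4), if_neg (not_lt.2 h3.le), if_pos h4]
        decide
      · rw [if_neg (not_lt.2 (mul_pos h3 h4).le), if_neg (not_lt.2 h3.le), if_neg (not_lt.2 h4.le)]
        decide
  have hx : φ X = 1 := by
    funext q
    show (if (X : ℝ[X]).eval q.1 < 0 then (-1 : ℤˣ) else 1) = 1
    rw [eval_X, if_neg]
    have := (hQ q.1 q.2).1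
    linarith
  have hx1 : φ (X - 1) = 1 := by
    funext q
    show (if (X - 1 : ℝ[X]).eval q.1 < 0 then (-1 : ℤˣ) else 1) = 1
    rw [eval_sub, eval_X, eval_one, if_neg]
    have := (hQ q.1 q.2).1
    linarith
  have hv : vals φ = ψ '' Pat Q := by
    ext a
    constructor
    · rintro ⟨V, hV, G, hG, h1⟩
      exact ⟨neg Q (chr G), ⟨V, hV, G, hG, rfl⟩, by rw [hψ, h1]⟩
    · rintro ⟨T, ⟨V, hV, G, hG, h1⟩, rfl⟩
      exact ⟨V, hV, G, hG, by rw [← h1, hψ]⟩
  have hPQ : ∀ T ∈ Pat Q, T ⊆ Q := by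
    rintro T ⟨V, hV, G, hG, rfl⟩
    exact hsub _
  have hcard : (vals φ).ncard = (Pat Q).ncard := by
    rw [hv]
    exact Set.InjOn.ncard_image (fun T hT T' hT' h => hinj T T' (hPQ T hT) (hPQ T' hT') h)
  have hTv : ψ T ∈ vals φ := by
    rw [hv]
    exact ⟨T, hT, rfl⟩
  obtain ⟨c, hc, n₀, H⟩ := hFG _ φ hφ hx hx1 (ψ T) hTv
  refine ⟨c, hc, n₀, fun n hn => ?_⟩
  have h1 := H n hn
  rw [hcard] at h1
  have h2 : (fun G : SimpleGraph (Fin n) => φ (chr G) = ψ T) =
      (fun G : SimpleGraph (Fin n) => neg Q (chr G) = T) := by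
    funext G
    apply propext
    rw [← hψ]
    exact ⟨fun h => hinj _ _ (hsub _) (hPQ T hT) h, fun h => by rw [h]⟩
  rw [h2] at h1
  exact h1


variable {𝒟 : ∀ V : Type, SimpleGraph V → Prop} (hD : Sub 𝒟)

include hD in
/-- flatness for natural numbers -/
theorem flat_nat' {f : ℝ[X] → ℕ} (hf : AddFun f) (V : Type) [Finite V]
    (G₀ : SimpleGraph V) (hG : Cl V G₀) : ∃ C : ℝ, ∀ n : ℕ, 1 ≤ n → ∀ T : Set ℕ,
      |share 𝒟 n (fun G => f (chr G) ∈ T) - share 𝒟 n (fun G => f (chr G) + f (chr G₀) ∈ T)| ≤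
        C / Real.sqrt n := by
  obtain ⟨C, H⟩ := sm2' hTR (sm1' hD hCB) _ hf.real (by simp [hf.x]) (by simp [hf.x1]) V G₀ hG
  refine ⟨C, fun n hn T => ?_⟩
  have h1 := H n hn ((fun k : ℕ => (k : ℝ)) '' T)
  have h2 : ∀ k : ℕ, (k : ℝ) ∈ (fun k : ℕ => (k : ℝ)) '' T ↔ k ∈ T := by
    intro k
    constructor
    · rintro ⟨j, hj, hjk⟩
      have hjk' : (j : ℝ) = (k : ℝ) := hjk
      have : j = k := by exact_mod_cast hjk'
      rwa [← this]
    · intro hk
      exact ⟨k, hk, rfl⟩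
  have h3 : (fun G : SimpleGraph (Fin n) => (Multiplicative.toAdd
      (Multiplicative.ofAdd ((f (chr G) : ℕ) : ℝ))) ∈ (fun k : ℕ => (k : ℝ)) '' T) =
      (fun G : SimpleGraph (Fin n) => f (chr G) ∈ T) := by
    funext G
    exact propext (h2 _)
  have h4 : (fun G : SimpleGraph (Fin n) => (Multiplicative.toAdd
      (Multiplicative.ofAdd ((f (chr G) : ℕ) : ℝ))) + (Multiplicative.toAdd
      (Multiplicative.ofAdd ((f (chr G₀) : ℕ) : ℝ))) ∈ (fun k : ℕ => (k : ℝ)) '' T) =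
      (fun G : SimpleGraph (Fin n) => f (chr G) + f (chr G₀) ∈ T) := by
    funext G
    apply propext
    rw [← h2]
    push_cast
    rfl
  rw [h3, h4] at h1
  exact h1


/-- the mean over the members of `𝒟` on `Fin n` -/
noncomputable def mean (𝒟 : ∀ V : Type, SimpleGraph V → Prop) (n : ℕ) (F : SimpleGraph (Fin n) → ℂ) : ℂ := by
  classical
  exact (∑ G : SimpleGraph (Fin n) with 𝒟 (Fin n) G, F G) / (num 𝒟 n : ℂ)

include hD in
/-- unitary characters: trivial or with exponentially small mean -/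
theorem uni_law' (φ : ℝ[X] → Circle) (hφ : IsMul φ) (hne : ¬ Triv φ) :
    ∃ c : ℝ, 0 < c ∧ ∃ n₀ : ℕ, ∀ n : ℕ, n₀ ≤ n →
      ‖mean 𝒟 n (fun G => (φ (chr G) : ℂ))‖ ≤ Real.exp (-(c * n)) := by
  obtain ⟨c, hc, n₀, H⟩ := uni' hD φ hφ hne
  refine ⟨c, hc, max n₀ 1, fun n hn => ?_⟩
  have hN : (0 : ℝ) < num 𝒟 n := by exact_mod_cast hD.pos ((le_max_right _ _).trans hn)
  unfold mean
  rw [norm_div, Complex.norm_natCast, div_le_iff₀ hN]
  exact H n ((le_max_left _ _).trans hn)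

include hD in
theorem lin' {f : ℝ[X] → ℕ} (hf : AddFun f)
    (hex : ∃ (V : Type) (_ : Finite V) (G : SimpleGraph V), Cl V G ∧ f (chr G) ≠ 0) :
    ∃ c : ℝ, 0 < c ∧ ∃ n₀ : ℕ, ∀ n : ℕ, n₀ ≤ n →
    share 𝒟 n (fun G => (f (chr G) : ℝ) < c * n) ≤ Real.exp (-(c * n)) := by
  obtain ⟨c, hc, n₀, H⟩ := t_LIN hTR f hf hex
  obtain ⟨C, hC, HC⟩ := hD.share_le
  obtain ⟨n₁, H1⟩ := exp_shrink hC hc
  refine ⟨c / 2, by linarith, max (max n₀ n₁) 1, fun n hn => ?_⟩
  have hn0 : n₀ ≤ n := (le_max_left _ _).trans ((le_max_left _ _).trans hn)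
  have hn1 : n₁ ≤ n := (le_max_right _ _).trans ((le_max_left _ _).trans hn)
  have hn2 : 1 ≤ n := (le_max_right _ _).trans hn
  have h1 : share 𝒟 n (fun G => (f (chr G) : ℝ) < c / 2 * n) ≤
      share 𝒟 n (fun G => (f (chr G) : ℝ) < c * n) := by
    apply share_mono
    intro G _ hG
    have h7 : (0 : ℝ) ≤ n := by positivity
    nlinarith
  refine h1.trans ((HC n hn2 _).trans (le_trans ?_ (H1 n hn1)))
  exact mul_le_mul_of_nonneg_left (H n hn0) hC.le

include hD in
theorem spread' {f : ℝ[X] → ℕ} (hf : AddFun f)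
    (hex : ∃ (V : Type) (_ : Finite V) (G : SimpleGraph V), Cl V G ∧ f (chr G) ≠ 0) :
    ∃ C : ℝ, ∀ n : ℕ, 1 ≤ n → ∀ k : ℕ, share 𝒟 n (fun G => f (chr G) = k) ≤ C / Real.sqrt n := by
  obtain ⟨C, H⟩ := spread_law hTR (t_SPR hCB) hf hex
  obtain ⟨C', hC', HC⟩ := hD.share_le
  refine ⟨C' * C, fun n hn k => (HC n hn _).trans ?_⟩
  rw [mul_div_assoc]
  exact mul_le_mul_of_nonneg_left (H n hn k) hC'.le

include hD in
theorem log_spread' {z : ℂ}
    (hz : ∀ (V : Type) [Finite V] (G : SimpleGraph V), Cl V G → aeval z (chr G) ≠ 0)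
    (hnt : ¬ Triv (fun p : ℝ[X] => phase 0 1 (aeval z p))) :
    ∃ C : ℝ, ∀ n : ℕ, 1 ≤ n → ∀ x : ℝ,
      share 𝒟 n (fun G => x ≤ Real.log ‖aeval z (chr G)‖ ∧ Real.log ‖aeval z (chr G)‖ < x + 1) ≤
        C / Real.sqrt n := by
  obtain ⟨C, H⟩ := log_spread hBW (t_SPR hCB) hz hnt
  obtain ⟨C', hC', HC⟩ := hD.share_le
  refine ⟨C' * C, fun n hn x => (HC n hn _).trans ?_⟩
  rw [mul_div_assoc]
  exact mul_le_mul_of_nonneg_left (H n hn x) hC'.le

include hD in
/-- all phases -/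
theorem phase_law {z : ℂ} (hz : ∀ (V : Type) [Finite V] (G : SimpleGraph V), Cl V G → aeval z (chr G) ≠ 0)
    {k : ℤ} {t : ℝ} (hnt : ¬ Triv (fun p : ℝ[X] => phase k t (aeval z p))) :
    ∃ c : ℝ, 0 < c ∧ ∃ n₀ : ℕ, ∀ n : ℕ, n₀ ≤ n →
      ‖mean 𝒟 n (fun G => (phase k t (aeval z (chr G)) : ℂ))‖ ≤ Real.exp (-(c * n)) :=
  uni_law' hD (fun p : ℝ[X] => phase k t (aeval z p)) (phase_isMul hBW t_PH hz k t) hnt

/-- the connected planar graphs -/
def Con (V : Type) (G : SimpleGraph V) : Prop := Cl V G ∧ G.Connected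

theorem sub_con (hC : S_CONN) : Sub Con where
  sub _ _ h := h.1
  rep _ _ _ _ _ hs _ hh hK hcl hG := ⟨cls_repl hCL hs hcl hG.1,
    Pool.Agent.D0H81.LW.t_RC _ _ _ _ _ hs _ hK hh hG.2⟩
  big := by
    obtain ⟨C, H⟩ := hC
    refine ⟨C + 1, Nat.succ_pos _, fun n hn => ?_⟩
    have h1 := H n hn
    have h2 : cnt Cl n (fun G => G.Connected) = num Con n := by
      classical
      unfold num
      rw [cnt_eq, cnt_eq]
      congr 1
      ext G
      simp [Con]
    rw [h2] at h1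
    calc num Cl n ≤ C * num Con n := h1
      _ ≤ (C + 1) * num Con n := Nat.mul_le_mul_right _ (Nat.le_succ _)

end Pool.Agent.D0H36.LC
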