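import Pool.Agent.D0H36.LC.Uni
import Pool.Agent.D0H12.LW.Triv
import Pool.Agent.D0H5.LW.Bow
import Pool.Agent.D0H28.LW.Cbin
import Pool.Agent.D0H6.LW.Size
import Pool.Agent.D0H6.LW.Arg

/-!
# The laws inside a subclass

Authors: helper36; helper28 (finite groups), helper5 (flatness), helper12, helper6 (imported modules).
-/

set_option autoImplicit false

namespace Pool.Agent.D0H36.LC

open Finset Polynomial Pool.Agent.H207R2.BL Pool.Agent.D0H36.BL
open Pool.Agent.R814.BL (Cl)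
open Pool.Agent.D0H36.LW

variable {𝒟 : ∀ V : Type, SimpleGraph V → Prop} (hD : Sub 𝒟)

theorem hBW : S_BOW := Pool.Agent.D0H5.LW.t_BOW

theorem hTR : S_TRIV := Pool.Agent.D0H12.LW.t_TRIV hBW

/-- (FG) in the subclass -/
def S_FG' (𝒟 : ∀ V : Type, SimpleGraph V → Prop) : Prop :=
  ∀ (M : Type) [CommGroup M] [Finite M] (φ : ℝ[X] → M), IsMul φ → φ X = 1 →
  φ (X - 1) = 1 → ∀ a ∈ vals φ, ∃ c : ℝ, 0 < c ∧ ∃ n₀ : ℕ, ∀ n : ℕ, n₀ ≤ n →
    |share 𝒟 n (fun G => φ (chr G) = a) - 1 / ((vals φ).ncard : ℝ)| ≤ Real.exp (-(c * n))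

include hD in
theorem fg' (hT : S_TRIV) : S_FG' 𝒟 := by
  classical
  intro M _ _ φ hφ hX hX1 a ha
  have hU := uni' hD
  have hnum := num_eq' 𝒟
  have hcnt : ∀ n, cnt 𝒟 n (fun G => φ (chr G) = a) =
      ((univ.filter (fun G : SimpleGraph (Fin n) => 𝒟 (Fin n) G)).filter
        (fun G => φ (chr G) = a)).card := by
    intro n
    rw [cnt_eq, Finset.filter_filter]
  have key := Pool.Agent.D0H28.LW.core (M := M) (fun n => SimpleGraph (Fin (n + 1)))
    (fun n => univ.filter (fun G : SimpleGraph (Fin (n + 1)) => 𝒟 (Fin (n + 1)) G))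
    (fun n G => φ (chr G)) (vals φ)
    (fun n G hG => ⟨Fin (n + 1), inferInstance, G, hD.sub _ _ (Finset.mem_filter.1 hG).2, rfl⟩)
    (fun n => by
      rw [← Finset.card_pos, ← hnum]
      exact hD.pos (by omega))
    (fun ψ => by
      let χ : AddChar (Additive M) Circle := AddChar.circleEquivComplex.symm ψ
      have hχ : ∀ x, ((χ x : Circle) : ℂ) = ψ x := by
        intro x
        have h1 : AddChar.circleEquivComplex χ = ψ :=
          AddChar.circleEquivComplex.apply_symm_apply ψ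
        rw [← h1]
        rfl
      let φ' : ℝ[X] → Circle := fun p => χ (Additive.ofMul (φ p))
      have hφ' : IsMul φ' := by
        obtain ⟨S, h1, h2, h3, h4, h5⟩ := hφ
        refine ⟨S, h1, h2, h3, h4, fun p hp q hq => ?_⟩
        change χ (Additive.ofMul (φ (p * q))) = _
        rw [h5 p hp q hq, ofMul_mul, AddChar.map_add_eq_mul]
      by_cases ht : Triv φ'
      · left
        rintro b ⟨V, _, G, hG, rfl⟩
        obtain ⟨c, d, -, -, -, h6⟩ := hT Circle φ' hφ' ht V G hG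
        have h7 : φ' X = 1 := by
          change χ (Additive.ofMul (φ X)) = 1
          rw [hX, ofMul_one, AddChar.map_zero_eq_one]
        have h8 : φ' (X - 1) = 1 := by
          change χ (Additive.ofMul (φ (X - 1))) = 1
          rw [hX1, ofMul_one, AddChar.map_zero_eq_one]
        rw [h7, h8, one_pow, one_pow, one_mul] at h6
        rw [← hχ]
        have h9 : χ (Additive.ofMul (φ (chr G))) = 1 := h6
        rw [h9]; rfl
      · right
        obtain ⟨c, hc, n₀, h⟩ := hU φ' hφ' ht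
        refine ⟨c, hc, n₀, fun n hn => ?_⟩
        have h1 := h (n + 1) (by omega)
        rw [hnum] at h1
        have h10 : Real.exp (-(c * ((n + 1 : ℕ) : ℝ))) ≤ Real.exp (-(c * n)) := by
          apply Real.exp_le_exp.2
          push_cast
          nlinarith
        refine le_trans (le_of_eq ?_) (h1.trans (mul_le_mul_of_nonneg_right h10 (by positivity)))
        congr 1)
    a ha
  obtain ⟨c, hc, n₀, h⟩ := key
  obtain ⟨n₁, H1⟩ := exp_shrink (Real.exp_pos c) hc
  refine ⟨c / 2, by linarith, max (n₀ + 1) n₁, fun n hn => ?_⟩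
  have hn0 : n₀ + 1 ≤ n := (le_max_left _ _).trans hn
  have hn1 : n₁ ≤ n := (le_max_right _ _).trans hn
  obtain ⟨m, rfl⟩ : ∃ m, n = m + 1 := ⟨n - 1, by omega⟩
  have h1 := h m (by omega)
  have h2 := H1 (m + 1) hn1
  unfold share
  rw [hcnt, hnum]
  refine (h1.trans (le_of_eq ?_)).trans h2
  rw [← Real.exp_add]
  congr 1
  push_cast
  ring

theorem flat_zero (𝒟 : ∀ V : Type, SimpleGraph V → Prop) (f : ℝ[X] → Multiplicative ℝ) : Flat' 𝒟 f 0 0 := by
  intro n _ T
  simp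

theorem flat_add {f : ℝ[X] → Multiplicative ℝ} {g g' C C' : ℝ} (h : Flat' 𝒟 f g C) (h' : Flat' 𝒟 f g' C') :
    Flat' 𝒟 f (g + g') (C + C') := by
  intro n hn T
  have h1 := h n hn {y | y + g' ∈ T}
  have h2 := h' n hn T
  simp only [Set.mem_ofPred_eq] at h1
  have e1 : (fun G : SimpleGraph (Fin n) => (f (chr G)).toAdd + (g + g') ∈ T) =
      fun G : SimpleGraph (Fin n) => (f (chr G)).toAdd + g + g' ∈ T := by
    funext G
    rw [add_assoc]
  rw [e1, add_div]
  have h3 := abs_add_le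
    (share 𝒟 n (fun G => (f (chr G)).toAdd ∈ T) - share 𝒟 n (fun G => (f (chr G)).toAdd + g' ∈ T))
    (share 𝒟 n (fun G => (f (chr G)).toAdd + g' ∈ T) -
      share 𝒟 n (fun G => (f (chr G)).toAdd + g + g' ∈ T))
  rw [sub_add_sub_cancel] at h3
  linarith

theorem flat_neg {f : ℝ[X] → Multiplicative ℝ} {g C : ℝ} (h : Flat' 𝒟 f g C) : Flat' 𝒟 f (-g) C := by
  intro n hn T
  have h1 := h n hn {y | y + -g ∈ T}
  simp only [Set.mem_ofPred_eq, add_neg_cancel_right] at h1
  rw [abs_sub_comm]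
  exact h1

/-- the group of the shifts -/
def shifts (𝒟 : ∀ V : Type, SimpleGraph V → Prop) (f : ℝ[X] → Multiplicative ℝ) : AddSubgroup ℝ where
  carrier := {g | ∃ C : ℝ, Flat' 𝒟 f g C}
  zero_mem' := ⟨0, flat_zero 𝒟 f⟩
  add_mem' := fun ⟨C, h⟩ ⟨C', h'⟩ => ⟨C + C', flat_add h h'⟩
  neg_mem' := fun ⟨C, h⟩ => ⟨C, flat_neg h⟩

theorem sm2' (hTR : S_TRIV) (hS : S_SM1' 𝒟) (f : ℝ[X] → Multiplicative ℝ) (hf : IsMul f)
    (hX : f X = 1) (hX1 : f (X - 1) = 1) (V : Type) [Finite V] (G : SimpleGraph V) (hG : Cl V G) :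
    ∃ C : ℝ, Flat' 𝒟 f (f (chr G)).toAdd C := by
  let φ : ℝ[X] → Multiplicative (ℝ ⧸ shifts 𝒟 f) := fun p =>
    Multiplicative.ofAdd (QuotientAddGroup.mk (f p).toAdd)
  have hφ : IsMul φ := by
    obtain ⟨S, h1, h2, h3, h4, h5⟩ := hf
    refine ⟨S, h1, h2, h3, h4, fun p hp q hq => ?_⟩
    show Multiplicative.ofAdd (QuotientAddGroup.mk (f (p * q)).toAdd) = _
    rw [h5 p hp q hq, toAdd_mul, QuotientAddGroup.mk_add, ofAdd_add]
  have hφT : Triv φ := by
    intro h A B hA hB hA2 hB2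
    obtain ⟨C, hC⟩ := hS f hf h A B hA hB hA2 hB2
    show Multiplicative.ofAdd (QuotientAddGroup.mk (f (chr A)).toAdd) =
      Multiplicative.ofAdd (QuotientAddGroup.mk (f (chr B)).toAdd)
    congr 1
    rw [QuotientAddGroup.eq]
    refine ⟨C, ?_⟩
    rw [neg_add_eq_sub]
    exact hC
  obtain ⟨c, d, -, -, -, h⟩ := hTR _ φ hφ hφT V G hG
  have e1 : φ X = 1 := by
    show Multiplicative.ofAdd (QuotientAddGroup.mk (f X).toAdd) = 1
    rw [hX, toAdd_one, QuotientAddGroup.mk_zero, ofAdd_zero]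
  have e2 : φ (X - 1) = 1 := by
    show Multiplicative.ofAdd (QuotientAddGroup.mk (f (X - 1)).toAdd) = 1
    rw [hX1, toAdd_one, QuotientAddGroup.mk_zero, ofAdd_zero]
  rw [e1, e2, one_pow, one_pow, one_mul] at h
  have h2 : (QuotientAddGroup.mk (f (chr G)).toAdd : ℝ ⧸ shifts 𝒟 f) = 0 := by
    have h3 := congrArg Multiplicative.toAdd h
    exact h3
  rw [QuotientAddGroup.eq_zero_iff] at h2
  exact h2


end Pool.Agent.D0H36.LC
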