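import Pool.Agent.D0H36.LW.Lin
import Pool.Agent.D0H36.LW.Asm

/-!
# Changing the contents of the sites one after the other, inside a subclass
-/

set_option autoImplicit false

namespace Pool.Agent.D0H36.LC

open Finset Pool.Agent.D0H36.BL
open Pool.Agent.D0H36.LW (Fam mem_Fam comap_repl_other sum_by_sites pascal)

section

variable {𝒞 : ∀ V : Type, SimpleGraph V → Prop} {h n : ℕ} {A B : SimpleGraph (Fin h)}

/-- closed under replacing -/
def RC (𝒞 : ∀ V : Type, SimpleGraph V → Prop) (A B : SimpleGraph (Fin h)) (n : ℕ) : Prop :=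
  ∀ (G : SimpleGraph (Fin n)) (W : Finset (Fin n)) (hs : Site {A, B} G W) (K : SimpleGraph (Fin h)),
    K ∈ ({A, B} : Set (SimpleGraph (Fin h))) → 𝒞 (Fin n) G → 𝒞 (Fin n) (repl G W hs.card K)

theorem fam_split (hR : RC 𝒞 A B n) (hAB : A ≠ B)
    (hT : ∀ K ∈ ({A, B} : Set (SimpleGraph (Fin h))), TwoEdge K)
    {E : Type} [AddCommMonoid E] (F : SimpleGraph (Fin n) → E)
    {S S' : Finset (Finset (Fin n))} {W : Finset (Fin n)} (hW : W.card = h) (hWS : W ∈ S)
    (hWS' : W ∉ S') (hSS : S' ⊆ S) :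
    ∑ G ∈ Fam 𝒞 A B S S', F G = ∑ G ∈ Fam 𝒞 A B S (insert W S'), (F G + F (repl G W hW B)) := by
  classical
  rw [← Finset.sum_filter_add_sum_filter_not (Fam 𝒞 A B S S')
    (fun G => G.comap (W.orderEmbOfFin hW) = A), Finset.sum_add_distrib]
  have e1 : (Fam 𝒞 A B S S').filter (fun G => G.comap (W.orderEmbOfFin hW) = A) =
      Fam 𝒞 A B S (insert W S') := by
    ext G
    rw [Finset.mem_filter, mem_Fam, mem_Fam]
    constructor
    · rintro ⟨⟨h1, h2, h3⟩, h4⟩
      refine ⟨h1, h2, fun W' hW' hc => ?_⟩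
      rcases Finset.mem_insert.1 hW' with rfl | hW'
      · exact h4
      · exact h3 W' hW' hc
    · rintro ⟨h1, h2, h3⟩
      exact ⟨⟨h1, h2, fun W' hW' hc => h3 W' (Finset.mem_insert_of_mem hW') hc⟩,
        h3 W (Finset.mem_insert_self _ _) hW⟩
  rw [e1]
  congr 1
  -- key facts
  have key : ∀ (G : SimpleGraph (Fin n)) (K : SimpleGraph (Fin h)), K ∈ ({A, B} : Set (SimpleGraph (Fin h))) →
      𝒞 (Fin n) G → sitesOf {A, B} G = S →
      𝒞 (Fin n) (repl G W hW K) ∧ sitesOf {A, B} (repl G W hW K) = S ∧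
        (∀ W' ∈ S', ∀ hW' : W'.card = h,
          (repl G W hW K).comap (W'.orderEmbOfFin hW') = G.comap (W'.orderEmbOfFin hW')) := by
    intro G K hK h1 h2
    have hs : Site {A, B} G W := mem_sitesOf.1 (by rw [h2]; exact hWS)
    refine ⟨hR G W hs K hK h1, ?_, ?_⟩
    · rw [← h2]
      ext W'
      rw [mem_sitesOf, mem_sitesOf]
      exact site_repl_iff hT hs hK W'
    · intro W' hW' hc
      refine comap_repl_other hW hc K ?_
      have hs' : Site {A, B} G W' := mem_sitesOf.1 (by rw [h2]; exact hSS hW')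
      exact hs.disjoint hT hs' (fun hh => hWS' (hh ▸ hW'))
  refine Finset.sum_nbij' (fun G => repl G W hW A) (fun G => repl G W hW B) ?_ ?_ ?_ ?_ ?_
  · intro G hG
    rw [Finset.mem_filter, mem_Fam] at hG
    obtain ⟨⟨h1, h2, h3⟩, h4⟩ := hG
    obtain ⟨k1, k2, k3⟩ := key G A (Or.inl rfl) h1 h2
    rw [mem_Fam]
    refine ⟨k1, k2, fun W' hW' hc => ?_⟩
    rcases Finset.mem_insert.1 hW' with rfl | hW'
    · exact repl_look _ _ _ _
    · rw [k3 W' hW' hc]
      exact h3 W' hW' hc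
  · intro G hG
    rw [mem_Fam] at hG
    obtain ⟨h1, h2, h3⟩ := hG
    obtain ⟨k1, k2, k3⟩ := key G B (Or.inr rfl) h1 h2
    rw [Finset.mem_filter, mem_Fam]
    refine ⟨⟨k1, k2, fun W' hW' hc => ?_⟩, ?_⟩
    · rw [k3 W' hW' hc]
      exact h3 W' (Finset.mem_insert_of_mem hW') hc
    · rw [repl_look]
      exact hAB.symm
  · intro G hG
    rw [Finset.mem_filter, mem_Fam] at hG
    obtain ⟨⟨h1, h2, h3⟩, h4⟩ := hG
    have hs : Site {A, B} G W := mem_sitesOf.1 (by rw [h2]; exact hWS)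
    have h5 : G.comap (W.orderEmbOfFin hW) = B := by
      rcases hs.look with h6 | h6
      · exact absurd h6 h4
      · exact h6
    exact repl_repl _ _ _ _ _ h5
  · intro G hG
    rw [mem_Fam] at hG
    obtain ⟨h1, h2, h3⟩ := hG
    exact repl_repl _ _ _ _ _ (h3 W (Finset.mem_insert_self _ _) hW)
  · intro G hG
    rw [Finset.mem_filter, mem_Fam] at hG
    obtain ⟨⟨h1, h2, h3⟩, h4⟩ := hG
    have hs : Site {A, B} G W := mem_sitesOf.1 (by rw [h2]; exact hWS)
    have h5 : G.comap (W.orderEmbOfFin hW) = B := by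
      rcases hs.look with h6 | h6
      · exact absurd h6 h4
      · exact h6
    show F G = F (repl (repl G W hW A) W hW B)
    rw [repl_repl _ _ _ _ _ h5]

/-- multiplicative weights -/
theorem fam_mul (hR : RC 𝒞 A B n) (hAB : A ≠ B)
    (hT : ∀ K ∈ ({A, B} : Set (SimpleGraph (Fin h))), TwoEdge K)
    {R : Type} [CommRing R] (F : SimpleGraph (Fin n) → R) (w : R)
    (hF : ∀ (G : SimpleGraph (Fin n)) (W : Finset (Fin n)) (hW : W.card = h), 𝒞 (Fin n) G →
      Site {A, B} G W → G.comap (W.orderEmbOfFin hW) = A → F (repl G W hW B) = w * F G)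
    {S : Finset (Finset (Fin n))} (hS : ∀ W ∈ S, W.card = h) (S' : Finset (Finset (Fin n)))
    (hSS : S' ⊆ S) :
    ∑ G ∈ Fam 𝒞 A B S ∅, F G = (1 + w) ^ S'.card * ∑ G ∈ Fam 𝒞 A B S S', F G := by
  classical
  induction S' using Finset.induction_on with
  | empty => simp
  | insert W S' hWS' ih =>
    have hWS : W ∈ S := hSS (Finset.mem_insert_self _ _)
    rw [ih (fun x hx => hSS (Finset.mem_insert_of_mem hx)),
      fam_split hR hAB hT F (hS W hWS) hWS hWS' (fun x hx => hSS (Finset.mem_insert_of_mem hx)),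
      Finset.card_insert_of_notMem hWS', pow_succ, mul_assoc]
    congr 1
    rw [Finset.mul_sum]
    refine Finset.sum_congr rfl (fun G hG => ?_)
    rw [mem_Fam] at hG
    obtain ⟨h1, h2, h3⟩ := hG
    rw [hF G W (hS W hWS) h1 (mem_sitesOf.1 (by rw [h2]; exact hWS))
      (h3 W (Finset.mem_insert_self _ _) _)]
    ring

theorem fam_card (hR : RC 𝒞 A B n) (hAB : A ≠ B)
    (hT : ∀ K ∈ ({A, B} : Set (SimpleGraph (Fin h))), TwoEdge K)
    {S : Finset (Finset (Fin n))} (hS : ∀ W ∈ S, W.card = h) :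
    ((Fam 𝒞 A B S ∅).card : ℝ) = 2 ^ S.card * ((Fam 𝒞 A B S S).card : ℝ) := by
  have h1 := fam_mul hR hAB hT (n := n) (fun _ => (1 : ℝ)) 1 (fun _ _ _ _ _ _ => by ring) hS S
    (Finset.Subset.refl _)
  simp only [Finset.sum_const, nsmul_eq_mul, mul_one] at h1
  rw [h1]
  norm_num

theorem fam_norm (hR : RC 𝒞 A B n) (hAB : A ≠ B)
    (hT : ∀ K ∈ ({A, B} : Set (SimpleGraph (Fin h))), TwoEdge K)
    (F : SimpleGraph (Fin n) → ℂ) (w : ℂ) (hF1 : ∀ G, ‖F G‖ ≤ 1)
    (hF : ∀ (G : SimpleGraph (Fin n)) (W : Finset (Fin n)) (hW : W.card = h), 𝒞 (Fin n) G →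
      Site {A, B} G W → G.comap (W.orderEmbOfFin hW) = A → F (repl G W hW B) = w * F G)
    (S : Finset (Finset (Fin n))) :
    ‖∑ G ∈ Fam 𝒞 A B S ∅, F G‖ ≤ (‖1 + w‖ / 2) ^ S.card * ((Fam 𝒞 A B S ∅).card : ℝ) := by
  by_cases hS : ∀ W ∈ S, W.card = h
  · rw [fam_mul hR hAB hT F w hF hS S (Finset.Subset.refl _), fam_card hR hAB hT hS, norm_mul,
      norm_pow, div_pow]
    have h2 : ‖∑ G ∈ Fam 𝒞 A B S S, F G‖ ≤ ((Fam 𝒞 A B S S).card : ℝ) := by
      refine (norm_sum_le _ _).trans ?_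
      refine (Finset.sum_le_card_nsmul _ _ 1 (fun G _ => hF1 G)).trans ?_
      simp
    have h3 : (0 : ℝ) < 2 ^ S.card := by positivity
    calc ‖1 + w‖ ^ S.card * ‖∑ G ∈ Fam 𝒞 A B S S, F G‖
        ≤ ‖1 + w‖ ^ S.card * ((Fam 𝒞 A B S S).card : ℝ) :=
          mul_le_mul_of_nonneg_left h2 (by positivity)
      _ = ‖1 + w‖ ^ S.card / 2 ^ S.card * (2 ^ S.card * ((Fam 𝒞 A B S S).card : ℝ)) := by
          field_simp
  · have h4 : Fam 𝒞 A B S ∅ = ∅ := by
      rw [Finset.eq_empty_iff_forall_notMem]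
      intro G hG
      rw [mem_Fam] at hG
      apply hS
      intro W hW
      rw [← hG.2.1, mem_sitesOf] at hW
      exact hW.card
    rw [h4]
    simp

open Classical in
/-- the sum of a multiplicative weight -/
theorem norm_sum_sites (hR : RC 𝒞 A B n) (hAB : A ≠ B)
    (hT : ∀ K ∈ ({A, B} : Set (SimpleGraph (Fin h))), TwoEdge K)
    (F : SimpleGraph (Fin n) → ℂ) (w : ℂ) (hF1 : ∀ G, ‖F G‖ ≤ 1)
    (hF : ∀ (G : SimpleGraph (Fin n)) (W : Finset (Fin n)) (hW : W.card = h), 𝒞 (Fin n) G →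
      Site {A, B} G W → G.comap (W.orderEmbOfFin hW) = A → F (repl G W hW B) = w * F G) :
    ‖∑ G : SimpleGraph (Fin n) with 𝒞 (Fin n) G, F G‖ ≤
      ∑ G : SimpleGraph (Fin n) with 𝒞 (Fin n) G, (‖1 + w‖ / 2) ^ (sitesOf {A, B} G).card := by
  rw [sum_by_sites (A := A) (B := B) F,
    sum_by_sites (A := A) (B := B) (fun G => (‖1 + w‖ / 2) ^ (sitesOf {A, B} G).card)]
  refine (norm_sum_le _ _).trans (Finset.sum_le_sum (fun S _ => ?_))
  refine (fam_norm hR hAB hT F w hF1 hF S).trans (le_of_eq ?_)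
  rw [Finset.sum_congr rfl (g := fun _ => (‖1 + w‖ / 2) ^ S.card) (fun G hG => by
    rw [(mem_Fam.1 hG).2.1]), Finset.sum_const, nsmul_eq_mul, mul_comm]

/-! ### additive functions -/

open Classical in
theorem fam_add (hR : RC 𝒞 A B n) (hAB : A ≠ B)
    (hT : ∀ K ∈ ({A, B} : Set (SimpleGraph (Fin h))), TwoEdge K)
    (f : SimpleGraph (Fin n) → ℝ) (g : ℝ)
    (hF : ∀ (G : SimpleGraph (Fin n)) (W : Finset (Fin n)) (hW : W.card = h), 𝒞 (Fin n) G →
      Site {A, B} G W → G.comap (W.orderEmbOfFin hW) = A → f (repl G W hW B) = f G + g)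
    (I : ℝ → ℝ) -- indicator of an interval
    {S : Finset (Finset (Fin n))} (hS : ∀ W ∈ S, W.card = h) (S' : Finset (Finset (Fin n)))
    (hSS : S' ⊆ S) :
    ∑ G ∈ Fam 𝒞 A B S ∅, I (f G) =
      ∑ j ∈ range (S'.card + 1), (S'.card.choose j : ℝ) * ∑ G ∈ Fam 𝒞 A B S S', I (f G + j * g) := by
  induction S' using Finset.induction_on with
  | empty => simp
  | insert W S' hWS' ih =>
    have hWS : W ∈ S := hSS (Finset.mem_insert_self _ _)
    rw [ih (fun x hx => hSS (Finset.mem_insert_of_mem hx)), Finset.card_insert_of_notMem hWS',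
      ← pascal S'.card (fun j => ∑ G ∈ Fam 𝒞 A B S (insert W S'), I (f G + j * g))]
    refine Finset.sum_congr rfl (fun j _ => ?_)
    congr 1
    rw [fam_split hR hAB hT (fun G => I (f G + j * g)) (hS W hWS) hWS hWS'
      (fun x hx => hSS (Finset.mem_insert_of_mem hx)), ← Finset.sum_add_distrib]
    refine Finset.sum_congr rfl (fun G hG => ?_)
    rw [mem_Fam] at hG
    obtain ⟨h1, h2, h3⟩ := hG
    rw [hF G W (hS W hWS) h1 (mem_sitesOf.1 (by rw [h2]; exact hWS))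
      (h3 W (Finset.mem_insert_self _ _) _)]
    congr 2
    push_cast
    ring

end

end Pool.Agent.D0H36.LC
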