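import Pool.Agent.D0H36.LC.Swap
import Pool.Agent.D0H28.LW.Fg
import Pool.Agent.D0H5.LW.Sm1
import Pool.Agent.D0H36.LW.Stm6

/-!
# The laws of characters inside a subclass (for example the connected planar graphs)
-/

set_option autoImplicit false

namespace Pool.Agent.D0H36.LC

open Finset Polynomial Pool.Agent.H207R2.BL Pool.Agent.D0H36.BL
open Pool.Agent.R814.BL (Cl)
open Pool.Agent.D0H36.LW

/-- subclasses which are closed under replacing the contents of sites and have a positive share -/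
structure Sub (𝒟 : ∀ V : Type, SimpleGraph V → Prop) : Prop where
  sub : ∀ (V : Type) (G : SimpleGraph V), 𝒟 V G → Cl V G
  rep : ∀ (h n : ℕ) (T : Set (SimpleGraph (Fin h))) (G : SimpleGraph (Fin n)) (W : Finset (Fin n))
    (hs : Site T G W) (K : SimpleGraph (Fin h)), 0 < h → TwoEdge K → Cl (Fin h) K → 𝒟 (Fin n) G →
    𝒟 (Fin n) (repl G W hs.card K)
  big : ∃ C : ℕ, 0 < C ∧ ∀ n : ℕ, 1 ≤ n → num Cl n ≤ C * num 𝒟 n

theorem sub_all : Sub Cl where
  sub _ _ h := h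
  rep _ _ _ _ _ hs _ _ _ hK hG := cls_repl hCL hs hK hG
  big := ⟨1, one_pos, fun n _ => by rw [one_mul]⟩

variable {𝒟 : ∀ V : Type, SimpleGraph V → Prop} (hD : Sub 𝒟)

include hD in
theorem Sub.rc {h n : ℕ} {A B : SimpleGraph (Fin h)} (hh : 0 < h)
    (hT : ∀ K ∈ ({A, B} : Set (SimpleGraph (Fin h))), TwoEdge K)
    (hcl : ∀ K ∈ ({A, B} : Set (SimpleGraph (Fin h))), Cl _ K) : RC 𝒟 A B n :=
  fun G W hs K hK hG => hD.rep h n _ G W hs K hh (hT K hK) (hcl K hK) hG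

include hD in
theorem Sub.pos {n : ℕ} (hn : 1 ≤ n) : 0 < num 𝒟 n := by
  obtain ⟨C, _, H⟩ := hD.big
  have h1 := hNP n
  have h2 := H n hn
  rcases Nat.eq_zero_or_pos (num 𝒟 n) with h | h
  · rw [h, mul_zero] at h2
    omega
  · exact h

open Classical in
theorem num_eq' (𝒟 : ∀ V : Type, SimpleGraph V → Prop) (n : ℕ) :
    num 𝒟 n = (univ.filter (fun G : SimpleGraph (Fin n) => 𝒟 (Fin n) G)).card := by
  unfold num
  rw [cnt_eq]
  congr 1
  ext G
  simp

include hD in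
theorem Sub.cnt_le {n : ℕ} (p : SimpleGraph (Fin n) → Prop) : cnt 𝒟 n p ≤ cnt Cl n p := by
  classical
  rw [cnt_eq, cnt_eq]
  apply Finset.card_le_card
  intro G hG
  obtain ⟨h1, h2, h3⟩ := Finset.mem_filter.1 hG
  exact Finset.mem_filter.2 ⟨h1, hD.sub _ _ h2, h3⟩

include hD in
/-- shares in the subclass -/
theorem Sub.share_le : ∃ C : ℝ, 0 < C ∧ ∀ n : ℕ, 1 ≤ n → ∀ p : SimpleGraph (Fin n) → Prop,
    share 𝒟 n p ≤ C * share Cl n p := by
  obtain ⟨C, hC, H⟩ := hD.big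
  refine ⟨C, by exact_mod_cast hC, fun n hn p => ?_⟩
  have h1 : (0 : ℝ) < num 𝒟 n := by exact_mod_cast hD.pos hn
  have h2 : (0 : ℝ) < num Cl n := by exact_mod_cast hNP n
  have h3 : (num Cl n : ℝ) ≤ C * num 𝒟 n := by exact_mod_cast H n hn
  have h4 : (cnt 𝒟 n p : ℝ) ≤ cnt Cl n p := by exact_mod_cast hD.cnt_le p
  unfold share
  rw [← mul_div_assoc, div_le_div_iff₀ h1 h2]
  have h5 : (0 : ℝ) ≤ cnt Cl n p := by positivity
  calc (cnt 𝒟 n p : ℝ) * num Cl n ≤ cnt Cl n p * (C * num 𝒟 n) :=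
        mul_le_mul h4 h3 h2.le h5
    _ = C * cnt Cl n p * num 𝒟 n := by ring

/-- exponentially small bounds -/
theorem exp_shrink {C c : ℝ} (hC : 0 < C) (hc : 0 < c) : ∃ n₀ : ℕ, ∀ n : ℕ, n₀ ≤ n →
    C * Real.exp (-(c * n)) ≤ Real.exp (-(c / 2 * n)) := by
  refine ⟨⌈2 * C / c⌉₊, fun n hn => ?_⟩
  have h1 : 2 * C / c ≤ n := Nat.ceil_le.1 hn
  rw [div_le_iff₀ hc] at h1
  have h2 : C ≤ Real.exp (c / 2 * n) := by
    have := Real.add_one_le_exp (c / 2 * n)
    linarith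
  have h3 : Real.exp (-(c * n)) = Real.exp (-(c / 2 * n)) * Real.exp (-(c / 2 * n)) := by
    rw [← Real.exp_add]
    congr 1
    ring
  have h4 : Real.exp (c / 2 * n) * Real.exp (-(c / 2 * n)) = 1 := by
    rw [← Real.exp_add, add_neg_cancel, Real.exp_zero]
  have h5 := Real.exp_pos (-(c / 2 * n))
  rw [h3]
  calc C * (Real.exp (-(c / 2 * n)) * Real.exp (-(c / 2 * n)))
      ≤ Real.exp (c / 2 * n) * (Real.exp (-(c / 2 * n)) * Real.exp (-(c / 2 * n))) :=
        mul_le_mul_of_nonneg_right h2 (by positivity)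
    _ = Real.exp (-(c / 2 * n)) := by rw [← mul_assoc, h4, one_mul]

open Classical in
include hD in
/-- sums of weights of the number of the sites -/
theorem sum_weight {h : ℕ} {A B : SimpleGraph (Fin h)} (hh : 0 < h)
    (hT : ∀ K ∈ ({A, B} : Set (SimpleGraph (Fin h))), TwoEdge K)
    (hcl : ∀ K ∈ ({A, B} : Set (SimpleGraph (Fin h))), Cl _ K) :
    ∃ c : ℝ, 0 < c ∧ ∃ n₀ : ℕ, ∀ ω : ℕ → ℝ, (∀ a b, a ≤ b → ω b ≤ ω a) → (∀ a, 0 ≤ ω a) →
      (∀ a, ω a ≤ 2) → ∀ n : ℕ, n₀ ≤ n →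
      ∑ G : SimpleGraph (Fin n) with 𝒟 (Fin n) G, ω (sitesOf {A, B} G).card ≤
        (2 * Real.exp (-(c * n)) + ω ⌈c * n⌉₊) * num 𝒟 n := by
  obtain ⟨c, hc, n₀, H⟩ := hMA Cl 5 hCL h hh {A, B} ⟨A, Or.inl rfl⟩ (fun K hK => ⟨hcl K hK, hT K hK⟩)
  obtain ⟨C, hC, HC⟩ := hD.big
  have hC' : (0 : ℝ) < C := by exact_mod_cast hC
  obtain ⟨n₁, H1⟩ := exp_shrink hC' hc
  refine ⟨c / 2, by linarith, max (max n₀ n₁) 1, fun ω hω h0 h2 n hn => ?_⟩
  have hn0 : n₀ ≤ n := (le_max_left _ _).trans ((le_max_left _ _).trans hn)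
  have hn1 : n₁ ≤ n := (le_max_right _ _).trans ((le_max_left _ _).trans hn)
  have hn2 : 1 ≤ n := (le_max_right _ _).trans hn
  have K1 := H n hn0
  have K2 := H1 n hn1
  have K3 : (num Cl n : ℝ) ≤ C * num 𝒟 n := by exact_mod_cast HC n hn2
  have K4 : (cnt 𝒟 n (fun G => ({W | Site {A, B} G W}.ncard : ℝ) < c * n) : ℝ) ≤
      cnt Cl n (fun G => ({W | Site {A, B} G W}.ncard : ℝ) < c * n) := by
    exact_mod_cast hD.cnt_le _
  have K5 : (cnt 𝒟 n (fun G => ({W | Site {A, B} G W}.ncard : ℝ) < c * n) : ℝ) ≤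
      Real.exp (-(c / 2 * n)) * num 𝒟 n := by
    have h5 := Real.exp_pos (-(c * n))
    calc _ ≤ _ := K4
      _ ≤ Real.exp (-(c * n)) * num Cl n := K1
      _ ≤ Real.exp (-(c * n)) * (C * num 𝒟 n) := mul_le_mul_of_nonneg_left K3 h5.le
      _ = (C * Real.exp (-(c * n))) * num 𝒟 n := by ring
      _ ≤ Real.exp (-(c / 2 * n)) * num 𝒟 n := mul_le_mul_of_nonneg_right K2 (by positivity)
  rw [cnt_eq] at K5
  have h3 : ∀ G : SimpleGraph (Fin n), ω (sitesOf {A, B} G).card ≤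
      (if ({W | Site {A, B} G W}.ncard : ℝ) < c * n then 2 else 0) + ω ⌈c / 2 * n⌉₊ := by
    intro G
    split_ifs with hG
    · have := h2 (sitesOf {A, B} G).card
      have := h0 ⌈c / 2 * n⌉₊
      linarith
    · rw [zero_add]
      apply hω
      rw [Nat.ceil_le]
      rw [sites_ncard] at hG
      have h6 := not_lt.1 hG
      have h7 : (0 : ℝ) ≤ n := by positivity
      nlinarith
  refine (Finset.sum_le_sum (fun G _ => h3 G)).trans ?_
  rw [Finset.sum_add_distrib, Finset.sum_const, nsmul_eq_mul, ← num_eq', ← Finset.sum_filter,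
    Finset.sum_const, nsmul_eq_mul, Finset.filter_filter]
  nlinarith

open Classical in
/-- (UNI) in the subclass -/
def S_UNI' (𝒟 : ∀ V : Type, SimpleGraph V → Prop) : Prop := ∀ φ : ℝ[X] → Circle, IsMul φ → ¬ Triv φ →
  ∃ c : ℝ, 0 < c ∧ ∃ n₀ : ℕ, ∀ n : ℕ, n₀ ≤ n →
    ‖∑ G : SimpleGraph (Fin n) with 𝒟 (Fin n) G, (φ (chr G) : ℂ)‖ ≤ Real.exp (-(c * n)) * num 𝒟 n

include hD in
theorem uni' : S_UNI' 𝒟 := by
  classical
  intro φ hφ hne
  unfold Triv at hne
  push Not at hne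
  obtain ⟨h, A, B, hA, hB, hA2, hB2, hAB⟩ := hne
  have hAB' : A ≠ B := fun hh => hAB (by rw [hh])
  have hh : 0 < h := by
    rcases Nat.eq_zero_or_pos h with rfl | h0
    · exact absurd (Subsingleton.elim A B) hAB'
    · exact h0
  have hT : ∀ K ∈ ({A, B} : Set (SimpleGraph (Fin h))), TwoEdge K := by
    rintro K (rfl | rfl)
    · exact hA2
    · exact hB2
  have hcl : ∀ K ∈ ({A, B} : Set (SimpleGraph (Fin h))), Cl _ K := by
    rintro K (rfl | rfl)
    · exact hA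
    · exact hB
  obtain ⟨c, hc, n₀, H⟩ := sum_weight hD hh hT hcl
  set w : Circle := φ (chr B) / φ (chr A) with hw
  have hw1 : (w : ℂ) ≠ 1 := by
    intro h1
    have h2 : w = 1 := Circle.ext h1
    rw [hw, div_eq_one] at h2
    exact hAB h2.symm
  have hr2 : ‖1 + (w : ℂ)‖ < 2 := norm_one_add_lt (Circle.norm_coe w) hw1
  set r : ℝ := max (‖1 + (w : ℂ)‖ / 2) (1 / 2) with hr
  have hr0 : 0 < r := lt_of_lt_of_le (by norm_num) (le_max_right _ _)
  have hr1 : r < 1 := max_lt (by linarith) (by norm_num)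
  have hκ : 0 < -Real.log r := neg_pos.2 (Real.log_neg hr0 hr1)
  set κ := -Real.log r with hκd
  have hexp : ∀ m : ℕ, r ^ m = Real.exp (-(κ * m)) := by
    intro m
    rw [hκd, neg_mul, neg_neg, mul_comm, Real.exp_nat_mul, Real.exp_log hr0]
  set c2 := min c (κ * c) with hc2
  have hc2p : 0 < c2 := lt_min hc (mul_pos hκ hc)
  refine ⟨c2 / 2, by linarith, max n₀ ⌈4 / c2⌉₊, fun n hn => ?_⟩
  have hn1 : n₀ ≤ n := (le_max_left _ _).trans hn
  have hn2 : 4 / c2 ≤ n := (Nat.ceil_le).1 ((le_max_right _ _).trans hn)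
  have hN : (0 : ℝ) ≤ num 𝒟 n := by positivity
  have h1 := norm_sum_sites (hD.rc hh hT hcl) hAB' hT (n := n) (fun G => (φ (chr G) : ℂ)) (w : ℂ)
    (fun G => (Circle.norm_coe _).le) (by
      intro G W hW hG hs hl
      show ((φ (chr (repl G W hW B)) : Circle) : ℂ) = (w : ℂ) * (φ (chr G) : ℂ)
      rw [val_repl hφ (hD.sub _ _ hG) hW hs hl hA hB, Circle.coe_mul])
  have h2 : ∑ G : SimpleGraph (Fin n) with 𝒟 (Fin n) G,
      (‖1 + (w : ℂ)‖ / 2) ^ (sitesOf {A, B} G).card ≤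
      ∑ G : SimpleGraph (Fin n) with 𝒟 (Fin n) G, r ^ (sitesOf {A, B} G).card := by
    refine Finset.sum_le_sum (fun G _ => ?_)
    exact pow_le_pow_left₀ (by positivity) (le_max_left _ _) _
  have h3 := H (fun m => r ^ m) (fun a b hab => pow_le_pow_of_le_one hr0.le hr1.le hab)
    (fun a => by positivity) (fun a => (pow_le_one₀ hr0.le hr1.le).trans (by norm_num)) n hn1
  refine (h1.trans (h2.trans h3)).trans (mul_le_mul_of_nonneg_right ?_ hN)
  have h4 : r ^ ⌈c * n⌉₊ ≤ Real.exp (-(c2 * n)) := by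
    rw [hexp]
    apply Real.exp_le_exp.2
    have h5 : c * n ≤ (⌈c * n⌉₊ : ℝ) := Nat.le_ceil _
    have h6 : c2 ≤ κ * c := min_le_right _ _
    have h7 : κ * (c * n) ≤ κ * (⌈c * n⌉₊ : ℝ) := mul_le_mul_of_nonneg_left h5 hκ.le
    have h8 : c2 * n ≤ κ * c * n := mul_le_mul_of_nonneg_right h6 (by positivity)
    nlinarith
  have h5 : Real.exp (-(c * n)) ≤ Real.exp (-(c2 * n)) := by
    apply Real.exp_le_exp.2
    have h6 : c2 ≤ c := min_le_left _ _
    have h8 : c2 * n ≤ c * n := mul_le_mul_of_nonneg_right h6 (by positivity)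
    linarith
  have h6 : Real.exp (-(c2 * n)) = Real.exp (-(c2 / 2 * n)) * Real.exp (-(c2 / 2 * n)) := by
    rw [← Real.exp_add]
    congr 1
    ring
  have h7 : Real.exp (-(c2 / 2 * n)) ≤ 1 / 3 := by
    have h8 : 2 ≤ c2 / 2 * n := by
      rw [div_le_iff₀ hc2p] at hn2
      nlinarith
    have h9 : 1 + 2 ≤ Real.exp (c2 / 2 * n) := by
      have := Real.add_one_le_exp (c2 / 2 * n)
      linarith
    rw [Real.exp_neg, ← one_div]
    exact one_div_le_one_div_of_le (by norm_num) (by linarith)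
  have h8 : 0 < Real.exp (-(c2 / 2 * n)) := Real.exp_pos _
  nlinarith


/-- (SM1) in the subclass -/
def Flat' (𝒟 : ∀ V : Type, SimpleGraph V → Prop) (f : ℝ[X] → Multiplicative ℝ) (g C : ℝ) : Prop :=
  ∀ n : ℕ, 1 ≤ n → ∀ T : Set ℝ,
  |share 𝒟 n (fun G => (f (chr G)).toAdd ∈ T) - share 𝒟 n (fun G => (f (chr G)).toAdd + g ∈ T)| ≤
    C / Real.sqrt n

def S_SM1' (𝒟 : ∀ V : Type, SimpleGraph V → Prop) : Prop := ∀ f : ℝ[X] → Multiplicative ℝ, IsMul f →
  ∀ (h : ℕ) (A B : SimpleGraph (Fin h)),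
  Cl (Fin h) A → Cl (Fin h) B → TwoEdge A → TwoEdge B →
  ∃ C : ℝ, Flat' 𝒟 f ((f (chr B)).toAdd - (f (chr A)).toAdd) C

open Classical in
theorem fam_flat (hCB : S_CBIN) {h n : ℕ} {A B : SimpleGraph (Fin h)} (hR : RC 𝒟 A B n) (hAB : A ≠ B)
    (hT : ∀ K ∈ ({A, B} : Set (SimpleGraph (Fin h))), TwoEdge K)
    (f : SimpleGraph (Fin n) → ℝ) (g : ℝ)
    (hF : ∀ (G : SimpleGraph (Fin n)) (W : Finset (Fin n)) (hW : W.card = h), 𝒟 (Fin n) G →
      Site {A, B} G W → G.comap (W.orderEmbOfFin hW) = A → f (repl G W hW B) = f G + g)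
    (T : Set ℝ) (S : Finset (Finset (Fin n))) :
    |∑ G ∈ Fam 𝒟 A B S ∅, ((if f G ∈ T then (1 : ℝ) else 0) - (if f G + g ∈ T then (1 : ℝ) else 0))| ≤
      Real.sqrt (2 / (S.card + 1)) * ((Fam 𝒟 A B S ∅).card : ℝ) := by
  by_cases hS : ∀ W ∈ S, W.card = h
  · have h1 := fam_add hR hAB hT f g hF (fun y => if y ∈ T then (1 : ℝ) else 0) hS S
      (Finset.Subset.refl _)
    have h2 := fam_add hR hAB hT f g hF (fun y => if y + g ∈ T then (1 : ℝ) else 0) hS S
      (Finset.Subset.refl _)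
    rw [Finset.sum_sub_distrib, h1, h2, fam_card hR hAB hT hS, ← Finset.sum_sub_distrib]
    set a : ℕ → ℝ := fun j => ∑ G ∈ Fam 𝒟 A B S S, (if f G + j * g ∈ T then (1 : ℝ) else 0) with ha
    have h3 : ∀ j : ℕ, ∑ G ∈ Fam 𝒟 A B S S, (if f G + j * g + g ∈ T then (1 : ℝ) else 0) = a (j + 1) := by
      intro j
      simp only [ha]
      refine Finset.sum_congr rfl (fun G _ => ?_)
      have : f G + ((j + 1 : ℕ) : ℝ) * g = f G + j * g + g := by
        push_cast
        ring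
      rw [this]
    have h4 : ∑ j ∈ range (S.card + 1), ((S.card.choose j : ℝ) *
        ∑ G ∈ Fam 𝒟 A B S S, (if f G + j * g ∈ T then (1 : ℝ) else 0) -
        (S.card.choose j : ℝ) * ∑ G ∈ Fam 𝒟 A B S S, (if f G + j * g + g ∈ T then (1 : ℝ) else 0)) =
        ∑ j ∈ range (S.card + 1), (S.card.choose j : ℝ) * (a j - a (j + 1)) := by
      refine Finset.sum_congr rfl (fun j _ => ?_)
      rw [h3 j, mul_sub]
    rw [h4]
    refine (Pool.Agent.D0H5.LW.parts S.card a ((Fam 𝒟 A B S S).card : ℝ) ?_ ?_).trans ?_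
    · intro j
      exact Finset.sum_nonneg (fun G _ => by split_ifs <;> norm_num)
    · intro j
      simp only [ha]
      refine (Finset.sum_le_card_nsmul _ _ 1 (fun G _ => by split_ifs <;> norm_num)).trans ?_
      simp
    rw [← mul_assoc]
    refine mul_le_mul_of_nonneg_right ?_ (by positivity)
    have h3 : ((S.card.choose (S.card / 2) : ℕ) : ℝ) ^ 2 * (S.card + 1) ≤ 2 * 4 ^ S.card := by
      exact_mod_cast hCB S.card
    have h4 : (0 : ℝ) < S.card + 1 := by positivity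
    have h5 : ((S.card.choose (S.card / 2) : ℕ) : ℝ) ^ 2 ≤ (2 / (S.card + 1)) * (2 ^ S.card) ^ 2 := by
      have h6 : ((2 : ℝ) ^ S.card) ^ 2 = 4 ^ S.card := by
        rw [← pow_mul, mul_comm, pow_mul]
        norm_num
      rw [h6, div_mul_eq_mul_div, le_div_iff₀ h4]
      exact h3
    have h7 : (Real.sqrt (2 / (S.card + 1)) * 2 ^ S.card) ^ 2 =
        (2 / (S.card + 1)) * ((2 : ℝ) ^ S.card) ^ 2 := by
      rw [mul_pow, Real.sq_sqrt (by positivity)]
    rw [← h7] at h5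
    exact le_of_sq_le_sq h5 (by positivity)
  · have h4 : Fam 𝒟 A B S ∅ = ∅ := by
      rw [Finset.eq_empty_iff_forall_notMem]
      intro G hG
      rw [mem_Fam] at hG
      apply hS
      intro W hW
      rw [← hG.2.1, mem_sitesOf] at hW
      exact hW.card
    rw [h4]
    simp

include hD in
theorem sm1' (hCB : S_CBIN) : S_SM1' 𝒟 := by
  classical
  intro f hf h A B hA hB hA2 hB2
  by_cases hAB' : A = B
  · subst hAB'
    refine ⟨0, fun n _ T => ?_⟩
    simp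
  have hh : 0 < h := by
    rcases Nat.eq_zero_or_pos h with rfl | h0
    · exact absurd (Subsingleton.elim A B) hAB'
    · exact h0
  have hT : ∀ K ∈ ({A, B} : Set (SimpleGraph (Fin h))), TwoEdge K := by
    rintro K (rfl | rfl)
    · exact hA2
    · exact hB2
  have hcl : ∀ K ∈ ({A, B} : Set (SimpleGraph (Fin h))), Cl _ K := by
    rintro K (rfl | rfl)
    · exact hA
    · exact hB
  obtain ⟨c, hc, n₀, H⟩ := sum_weight hD hh hT hcl
  set g : ℝ := (f (chr B)).toAdd - (f (chr A)).toAdd with hg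
  refine ⟨2 / c + Real.sqrt (2 / c) + Real.sqrt n₀, fun n hn T => ?_⟩
  have hn0 : (0 : ℝ) < n := by exact_mod_cast hn
  have hsn : 0 < Real.sqrt n := Real.sqrt_pos.2 hn0
  rw [le_div_iff₀ hsn]
  by_cases hnn : n₀ ≤ n
  · have h1 : |∑ G : SimpleGraph (Fin n) with 𝒟 (Fin n) G,
        ((if (f (chr G)).toAdd ∈ T then (1 : ℝ) else 0) -
          (if (f (chr G)).toAdd + g ∈ T then (1 : ℝ) else 0))| ≤
        ∑ G : SimpleGraph (Fin n) with 𝒟 (Fin n) G,
          Real.sqrt (2 / (((sitesOf {A, B} G).card : ℝ) + 1)) := by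
      rw [sum_by_sites (A := A) (B := B), sum_by_sites (A := A) (B := B)
        (fun G => Real.sqrt (2 / (((sitesOf {A, B} G).card : ℝ) + 1)))]
      refine (Finset.abs_sum_le_sum_abs _ _).trans (Finset.sum_le_sum (fun S _ => ?_))
      refine (fam_flat hCB (hD.rc hh hT hcl) hAB' hT (fun G => (f (chr G)).toAdd) g ?_ T S).trans
        (le_of_eq ?_)
      · intro G W hW hG hs hl
        show (f (chr (repl G W hW B))).toAdd = (f (chr G)).toAdd + g
        rw [val_repl hf (hD.sub _ _ hG) hW hs hl hA hB, toAdd_mul, toAdd_div]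
        ring
      · rw [Finset.sum_congr rfl (g := fun _ => Real.sqrt (2 / ((S.card : ℝ) + 1))) (fun G hG => by
          rw [(mem_Fam.1 hG).2.1]), Finset.sum_const, nsmul_eq_mul, mul_comm]
    have h2 := H (fun m => Real.sqrt (2 / ((m : ℝ) + 1))) (by
      intro a b hab
      apply Real.sqrt_le_sqrt
      have : (a : ℝ) ≤ b := by exact_mod_cast hab
      exact div_le_div_of_nonneg_left (by norm_num) (by positivity) (by linarith))
      (fun a => Real.sqrt_nonneg _) (by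
      intro a
      rw [Real.sqrt_le_left (by norm_num)]
      rw [div_le_iff₀ (by positivity)]
      have : (0 : ℝ) ≤ a := by positivity
      nlinarith) n hnn
    have hN : (0 : ℝ) < num 𝒟 n := by exact_mod_cast hD.pos hn
    have h3 : |share 𝒟 n (fun G => (f (chr G)).toAdd ∈ T) -
        share 𝒟 n (fun G => (f (chr G)).toAdd + g ∈ T)| ≤
        2 * Real.exp (-(c * n)) + Real.sqrt (2 / ((⌈c * n⌉₊ : ℝ) + 1)) := by
      unfold share
      rw [← sub_div, abs_div, abs_of_pos hN, div_le_iff₀ hN]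
      refine le_trans (le_of_eq ?_) (h1.trans h2)
      rw [cnt_eq, cnt_eq, Finset.sum_sub_distrib, ← Finset.sum_filter, ← Finset.sum_filter,
        Finset.sum_const, Finset.sum_const, nsmul_eq_mul, nsmul_eq_mul, mul_one, mul_one,
        Finset.filter_filter, Finset.filter_filter]
    refine (mul_le_mul_of_nonneg_right h3 hsn.le).trans ?_
    have h4 : Real.sqrt (2 / ((⌈c * n⌉₊ : ℝ) + 1)) * Real.sqrt n ≤ Real.sqrt (2 / c) := by
      rw [← Real.sqrt_mul (by positivity)]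
      apply Real.sqrt_le_sqrt
      rw [div_mul_eq_mul_div, div_le_div_iff₀ (by positivity) hc]
      have h5 : c * n ≤ (⌈c * n⌉₊ : ℝ) := Nat.le_ceil _
      nlinarith
    have h5 : Real.exp (-(c * n)) * Real.sqrt n ≤ 1 / c := by
      have h6 : c * n ≤ Real.exp (c * n) := by
        have := Real.add_one_le_exp (c * n)
        linarith
      have h7 : Real.sqrt n ≤ n := by
        rw [Real.sqrt_le_left hn0.le]
        have : (1 : ℝ) ≤ n := by exact_mod_cast hn
        nlinarith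
      rw [Real.exp_neg, inv_mul_eq_div, div_le_div_iff₀ (Real.exp_pos _) hc]
      nlinarith
    have h6 : 0 ≤ Real.sqrt n₀ := Real.sqrt_nonneg _
    calc (2 * Real.exp (-(c * n)) + Real.sqrt (2 / ((⌈c * n⌉₊ : ℝ) + 1))) * Real.sqrt n
        = 2 * (Real.exp (-(c * n)) * Real.sqrt n) +
          Real.sqrt (2 / ((⌈c * n⌉₊ : ℝ) + 1)) * Real.sqrt n := by ring
      _ ≤ 2 * (1 / c) + Real.sqrt (2 / c) := by linarith
      _ ≤ 2 / c + Real.sqrt (2 / c) + Real.sqrt n₀ := by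
          have : 2 * (1 / c) = 2 / c := by ring
          linarith
  · have h1 : Real.sqrt n ≤ Real.sqrt n₀ := by
      apply Real.sqrt_le_sqrt
      have : n ≤ n₀ := by omega
      exact_mod_cast this
    have h2 : |share 𝒟 n (fun G => (f (chr G)).toAdd ∈ T) -
        share 𝒟 n (fun G => (f (chr G)).toAdd + g ∈ T)| ≤ 1 := by
      have a1 := share_le_one (𝒞 := 𝒟) (n := n) (fun G => (f (chr G)).toAdd ∈ T)
      have a2 := share_le_one (𝒞 := 𝒟) (n := n) (fun G => (f (chr G)).toAdd + g ∈ T)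
      have a3 := share_nonneg (𝒞 := 𝒟) (n := n) (fun G => (f (chr G)).toAdd ∈ T)
      have a4 := share_nonneg (𝒞 := 𝒟) (n := n) (fun G => (f (chr G)).toAdd + g ∈ T)
      rw [abs_le]
      constructor <;> linarith
    have h3 : 0 ≤ Real.sqrt (2 / c) := Real.sqrt_nonneg _
    have h4 : 0 ≤ 2 / c := by positivity
    nlinarith


end Pool.Agent.D0H36.LC
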